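import Mathlib
import Pool.Agent.Q209.OSSmall2
import Pool.Agent.Q209.AddForce

/-!
# The Ostaszewski square at a successor cardinal does not imply `lam^{<lam} = lam`

Let `lam` be an uncountable cardinal, for instance a successor cardinal, with
`2^lam = lam⁺` and with the Ostaszewski square for `lam` (all this holds in `L`). Then the forcing
notion `P` of adding `lam⁺` Cohen reals preserves all regular uncountable cardinals and forces the
Ostaszewski square for `lam`, and that there are `lam⁺` different subsets of `ω`, so that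
`lam^{<lam} ≥ 2^ℵ₀ ≥ lam⁺ > lam`.

Idea: using `2^lam = lam⁺`, let the points `y` of `lam⁺` code the names `N y` of functions on `lam`
which involve at most `lam` conditions. In the extension replace the element `y = C_α (i + 1)` of a
ground model sequence by the least point `w` between `C_α (i)` and `y` which is the value of `N y`
at `i`, if there is one. The new sequence is a square sequence. Given names for unbounded sets
`A_i`, `i < lam`, and for a club, there is a club `E` of the ground model inside the latter, and
there is, for each point `δ`, a small name for a function which assigns to `i` an element of `A_i`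
above `δ`. Guess with `C` that `y` codes this name for the last point `δ` of `E` below `y`.

Sentences of the forcing language are represented by the sets of conditions which force them, see
`Pool.Agent.Helper669.Forcing`; in particular `FOSq P lam` is the Ostaszewski square in the
extension, for named sequences of named sets.
-/

set_option autoImplicit false

namespace Pool.Agent.Results.MP_90fc86_lc.OstaszewskiManyReals

open Cardinal Set Order Ordinal Q209.OS
open Pool.Agent.Helper669.Forcing Pool.Agent.Helper669.K

/-- `C` is a `□_lam` sequence. -/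
def IsSquare (lam : Cardinal.{0}) (C : Kp lam → Set (Kp lam)) : Prop :=
  ∀ α, IsSuccLimit α → IsClubIn (C α) α ∧ typeLT (C α) ≤ lam.ord ∧
    ∀ β ∈ acc (C α), C β = C α ∩ Iio β

/-- The Ostaszewski square for `lam`. -/
def OS (lam : Cardinal.{0}) : Prop := ∃ C : Kp lam → Set (Kp lam), IsSquare lam C ∧ Guesses lam C

/-- In the extension there are at least `κ` different subsets of `ω`. -/
def FManyReals (P : Type) [Preorder P] (κ : Cardinal.{0}) : Set P :=
  fex fun G : κ.ord.ToType → (ℵ₀ : Cardinal.{0}).ord.ToType → Set P =>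
    fall fun x => fall fun y => fall fun _ : x ≠ y => fnot (SameSet (G x) (G y))

/-- The new sequence is a square sequence in the extension. -/
theorem fsquare {lam : Cardinal.{0}} {P : Type} [Preorder P]
    (N : Kp lam → Ordinal.{0} → Kp lam → Set P) {C : Kp lam → Set (Kp lam)}
    (hC : IsSquare lam C) (p : P) : p ∈ FSquare lam (fun α => NC N (C α)) := by
  intro α hα
  obtain ⟨h1, h2, h3⟩ := hC α hα
  refine ⟨clubIn_NC N h1 p, mem_fex.2 fun q _ => ⟨q, le_rfl, typeLT (C α), h2, ?_⟩,
    fun β => coh_NC N h1 h3 β p⟩
  exact mem_fex_of_mem (NE N (C α)) (down_FEnum _ _ _) (enum_NC N (C α) q)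

theorem mk_Ad_le {κ : Cardinal.{0}} (hκ : ℵ₀ ≤ κ) {D : Type} (hD : #D ≤ κ) :
    #(Ad ℵ₀ D) ≤ κ := by
  classical
  have hfin : ∀ p : Ad ℵ₀ D, p.g.Finite := fun p => Cardinal.lt_aleph0_iff_set_finite.1 p.small
  have h1 : #(Ad ℵ₀ D) ≤ #(Finset (D × Bool)) := by
    refine ⟨⟨fun p => (hfin p).toFinset, fun p q h => ?_⟩⟩
    have h2 : p.g = q.g := by
      have := congrArg (fun s : Finset (D × Bool) => (s : Set (D × Bool))) h
      simpa using this
    cases p
    cases q
    simp only at h2
    subst h2
    rfl
  refine h1.trans ?_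
  have h3 : #(D × Bool) ≤ κ := by
    simp only [mk_prod, Cardinal.lift_id]
    exact mul_le_of_le hκ hD (mk_le_aleph0.trans hκ)
  rcases finite_or_infinite (D × Bool) with hf | hi
  · exact (mk_lt_aleph0.le).trans hκ
  · rw [mk_finset_of_infinite]
    exact h3

theorem result (lam : Cardinal.{0}) (hω : ℵ₀ < lam)
    (h2 : 2 ^ lam = succ lam) (hOS : OS lam) :
    ∃ (P : Type) (_ : Preorder P), Nonempty P ∧ ∀ p : P,
      (∀ ν : Cardinal.{0}, ν.IsRegular → ℵ₀ < ν → p ∈ StaysRegular P ν) ∧
      p ∈ FOSq P lam ∧ p ∈ FManyReals P (succ lam) := by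
  obtain ⟨C, hC1, hC2⟩ := hOS
  have hsucc : ℵ₀ ≤ succ lam := hω.le.trans (le_succ lam)
  let P : Type := Ad ℵ₀ ((succ lam).ord.ToType × (ℵ₀ : Cardinal.{0}).ord.ToType)
  have hccc : ChainC ℵ₀ P := chainC_Ad isRegular_aleph0 (powerlt_aleph0 le_rfl)
  have hcc : ChainC lam P := fun ι f hι => hccc ι f (hω.trans hι)
  have hP : #P ≤ succ lam := by
    apply mk_Ad_le hsucc
    simp only [mk_prod, Cardinal.lift_id, Cardinal.mk_toType, card_ord]
    exact mul_le_of_le hsucc le_rfl hsucc
  obtain ⟨ψ, hψ⟩ := exists_codes' (Z := lam.ord.ToType × Kp lam × P) hω.le h2 (by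
    simp only [mk_prod, Cardinal.lift_id, Cardinal.mk_toType, card_ord]
    exact mul_le_of_le hsucc (le_succ lam) (mul_le_of_le hsucc le_rfl hP))
  refine ⟨P, inferInstance, nonempty_Ad isRegular_aleph0, fun p => ⟨?_, ?_, ?_⟩⟩
  · intro ν hν hων
    exact staysRegular_of_cc le_rfl hν hων hccc p
  · exact mem_fex.2 fun q _ => ⟨q, le_rfl, fun α => NC (dec ψ) (C α),
      fsquare (dec ψ) hC1 q, forced_guessing hω.le hcc hψ hC2 q⟩
  · exact mem_fex.2 fun q _ => ⟨q, le_rfl, fun x a => {q | ((x, a), true) ∈ q.g},
      fun x y hxy => generic_ne isRegular_aleph0 x y hxy q⟩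

end Pool.Agent.Results.MP_90fc86_lc.OstaszewskiManyReals
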